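import Pool.Agent.N353.Star.Main
import Pool.Agent.Helper46.A.F

set_option autoImplicit false

namespace Pool.Agent.N353.Star

open Finset Filter Pool.Agent.Helper46 Pool.Agent.Helper46.A Pool.Agent.Helper46.A.F

/-- labelled matroids on `n` elements -/
abbrev Lab (n : ℕ) : Type := {M : Matroid (Fin n) // M.E = Set.univ}

/-- isomorphism classes of matroids on `n` elements -/
abbrev Unl (n : ℕ) : Type := Quot (fun M N : Lab n =>
  ∃ σ : Equiv.Perm (Fin n), ∀ B : Set (Fin n), M.1.IsBase B ↔ N.1.IsBase (σ '' B))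

instance (n : ℕ) : Finite (Lab n) := finX_22726 n

instance (n : ℕ) : Finite (Unl n) := Quot.finite _

theorem bad_lab (n : ℕ) (P : Matroid (Fin n) → Prop) (ε : ℝ)
    (h : ∀ (M : Lab n) (r : ℕ), r ≤ n → IsBF r (bs_22726 M.1) → Good n r ε (bs_22726 M.1) → P M.1) :
    (Nat.card {M : Lab n // ¬ P M.1} : ℝ) ≤ ∑ r ∈ range (n + 1), ((BadF n r ε).card : ℝ) := by
  classical
  let φ : {M : Lab n // ¬ P M.1} → Fam n := fun M => bs_22726 M.1.1
  have hinj : Function.Injective φ := by
    intro M N hMN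
    exact Subtype.ext (bs_inj_22726 hMN)
  have hmem : ∀ M, φ M ∈ (range (n + 1)).biUnion (fun r => BadF n r ε) := by
    intro M
    obtain ⟨r, hr, hBF⟩ := bs_isBF_22726 M.1.1
    rw [mem_biUnion]
    refine ⟨r, mem_range.2 (by omega), ?_⟩
    unfold BadF
    rw [mem_filter]
    refine ⟨mem_BF.2 hBF, fun hg => M.2 (h M.1 r hr hBF hg)⟩
  have h1 : Nat.card {M : Lab n // ¬ P M.1} ≤
      ((range (n + 1)).biUnion (fun r => BadF n r ε)).card := by
    have h2 := Nat.card_le_card_of_injective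
      (fun M => (⟨φ M, hmem M⟩ : {B // B ∈ (range (n + 1)).biUnion (fun r => BadF n r ε)}))
      (fun M N hMN => hinj (congrArg Subtype.val hMN))
    refine h2.trans (le_of_eq ?_)
    rw [Nat.card_eq_fintype_card, Fintype.card_coe]
  have h2 := h1.trans card_biUnion_le
  exact_mod_cast h2

theorem bad_unl (n : ℕ) (P : Matroid (Fin n) → Prop) :
    Nat.card {q : Unl n // ¬ ∀ M : Lab n, Quot.mk _ M = q → P M.1} ≤
      Nat.card {M : Lab n // ¬ P M.1} := by
  classical
  have hex : ∀ q : {q : Unl n // ¬ ∀ M : Lab n, Quot.mk _ M = q → P M.1},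
      ∃ M : {M : Lab n // ¬ P M.1}, Quot.mk _ M.1 = q.1 := by
    rintro ⟨q, hq⟩
    push Not at hq
    obtain ⟨M, hM, hP⟩ := hq
    exact ⟨⟨M, hP⟩, hM⟩
  choose f hf using hex
  apply Nat.card_le_card_of_injective f
  intro q q' hqq
  apply Subtype.ext
  rw [← hf q, ← hf q', hqq]

theorem mm_card (n : ℕ) : mm n ≤ (Nat.card (Lab n) : ℝ) := mm_le_22726 n

theorem lab_unl (n : ℕ) : (Nat.card (Lab n) : ℝ) ≤ (Nat.card (Unl n) : ℝ) * (n.factorial : ℝ) := by
  rw [← Nat.cast_mul]
  exact Nat.cast_le.2 (card_le_22726 n)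

theorem unl_pos (n : ℕ) : 0 < Nat.card (Unl n) := quot_pos_22726 n

theorem lab_pos (n : ℕ) : 0 < Nat.card (Lab n) := by
  have : Nonempty (Lab n) := ⟨⟨Matroid.loopyOn Set.univ, rfl⟩⟩
  exact Nat.card_pos

theorem split_card {α : Type} [Finite α] (p : α → Prop) :
    Nat.card α = Nat.card {x // p x} + Nat.card {x // ¬ p x} := by
  classical
  have := Fintype.ofFinite α
  rw [Nat.card_eq_fintype_card, Nat.card_eq_fintype_card, Nat.card_eq_fintype_card,
    Fintype.card_subtype, Fintype.card_subtype, Finset.card_filter_add_card_filter_not,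
    Finset.card_univ]

theorem num0 : Tendsto (fun n : ℕ => ((2 * n + 1 : ℝ) * n.factorial) / 2 ^ (n ^ 2)) atTop (nhds 0) := by
  refine squeeze_zero' (Eventually.of_forall fun n => by positivity) ?_ num_22726
  filter_upwards [eventually_ge_atTop 4] with n hn
  apply div_le_div_of_nonneg_right _ (by positivity)
  rw [sq]
  apply mul_le_mul_of_nonneg_right _ (by positivity)
  have h1 : n * (n - 1) ≤ n.factorial := by
    obtain ⟨m, rfl⟩ : ∃ m, n = m + 2 := ⟨n - 2, by omega⟩
    rw [Nat.factorial_succ, Nat.factorial_succ]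
    have : 1 ≤ m.factorial := Nat.factorial_pos m
    have e : m + 2 - 1 = m + 1 := by omega
    calc (m + 2) * (m + 2 - 1) = (m + 2) * ((m + 1) * 1) := by rw [e, mul_one]
      _ ≤ (m + 1 + 1) * ((m + 1) * m.factorial) := by gcongr
  have h2 : 2 * n + 1 ≤ n.factorial := by
    refine le_trans ?_ h1
    obtain ⟨m, rfl⟩ : ∃ m, n = m + 4 := ⟨n - 4, by omega⟩
    have : m + 4 - 1 = m + 3 := by omega
    rw [this]
    nlinarith
  exact_mod_cast h2

/-- a property of all matroids with few nonbases and rank in the middle window holds for almost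
all matroids, labelled and unlabelled -/
theorem transfer (P : ∀ n, Matroid (Fin n) → Prop) (ε : ℝ) (hε : 0 < ε)
    (h : ∀ᶠ n : ℕ in atTop, ∀ (M : Lab n) (r : ℕ), r ≤ n → IsBF r (bs_22726 M.1) →
      Good n r ε (bs_22726 M.1) → P n M.1) :
    Tendsto (fun n : ℕ => (Nat.card {M : Lab n // P n M.1} : ℝ) / (Nat.card (Lab n) : ℝ))
      atTop (nhds 1) ∧
    Tendsto (fun n : ℕ => (Nat.card {q : Unl n // ∀ M : Lab n, Quot.mk _ M = q → P n M.1} : ℝ) /
      (Nat.card (Unl n) : ℝ)) atTop (nhds 1) := by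
  classical
  have hlow : Tendsto (fun n : ℕ => 1 - ((2 * n + 1 : ℝ) * n.factorial) / 2 ^ (n ^ 2)) atTop
      (nhds 1) := by
    have h0 := num0.const_sub 1
    rw [sub_zero] at h0
    exact h0
  have hbad : ∀ᶠ n : ℕ in atTop,
      (Nat.card {M : Lab n // ¬ P n M.1} : ℝ) * 2 ^ (n ^ 2) ≤ (2 * n + 1) * (Nat.card (Lab n) : ℝ) := by
    filter_upwards [h, star ε hε] with n h1 h2
    calc (Nat.card {M : Lab n // ¬ P n M.1} : ℝ) * 2 ^ (n ^ 2)
        ≤ (∑ r ∈ range (n + 1), ((BadF n r ε).card : ℝ)) * 2 ^ (n ^ 2) :=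
          mul_le_mul_of_nonneg_right (bad_lab n (P n) ε h1) (by positivity)
      _ ≤ (2 * n + 1) * mm n := h2
      _ ≤ _ := mul_le_mul_of_nonneg_left (mm_card n) (by positivity)
  constructor
  · refine tendsto_of_tendsto_of_tendsto_of_le_of_le' hlow tendsto_const_nhds ?_ ?_
    · filter_upwards [hbad] with n hn
      have hL : (0 : ℝ) < (Nat.card (Lab n) : ℝ) := by exact_mod_cast lab_pos n
      have hs : (Nat.card (Lab n) : ℝ) = (Nat.card {M : Lab n // P n M.1} : ℝ) +
          (Nat.card {M : Lab n // ¬ P n M.1} : ℝ) := by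
        exact_mod_cast split_card (fun M : Lab n => P n M.1)
      rw [le_div_iff₀ hL, sub_mul, one_mul]
      have hb : (Nat.card {M : Lab n // ¬ P n M.1} : ℝ) ≤
          ((2 * n + 1 : ℝ) * n.factorial) / 2 ^ (n ^ 2) * (Nat.card (Lab n) : ℝ) := by
        rw [div_mul_eq_mul_div, le_div_iff₀ (by positivity)]
        refine hn.trans ?_
        apply mul_le_mul_of_nonneg_right _ hL.le
        have : (1 : ℝ) ≤ n.factorial := by exact_mod_cast n.factorial_pos
        exact le_mul_of_one_le_right (by positivity) this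
      linarith
    · refine Eventually.of_forall fun n => ?_
      apply div_le_one_of_le₀ _ (Nat.cast_nonneg _)
      apply Nat.cast_le.2
      exact Nat.card_le_card_of_injective _ Subtype.val_injective
  · refine tendsto_of_tendsto_of_tendsto_of_le_of_le' hlow tendsto_const_nhds ?_ ?_
    · filter_upwards [hbad] with n hn
      have hL : (0 : ℝ) < (Nat.card (Unl n) : ℝ) := by exact_mod_cast unl_pos n
      have hs : (Nat.card (Unl n) : ℝ) =
          (Nat.card {q : Unl n // ∀ M : Lab n, Quot.mk _ M = q → P n M.1} : ℝ) +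
          (Nat.card {q : Unl n // ¬ ∀ M : Lab n, Quot.mk _ M = q → P n M.1} : ℝ) := by
        exact_mod_cast split_card (fun q : Unl n => ∀ M : Lab n, Quot.mk _ M = q → P n M.1)
      rw [le_div_iff₀ hL, sub_mul, one_mul]
      have hb : (Nat.card {q : Unl n // ¬ ∀ M : Lab n, Quot.mk _ M = q → P n M.1} : ℝ) ≤
          ((2 * n + 1 : ℝ) * n.factorial) / 2 ^ (n ^ 2) * (Nat.card (Unl n) : ℝ) := by
        rw [div_mul_eq_mul_div, le_div_iff₀ (by positivity)]
        have e1 : (Nat.card {q : Unl n // ¬ ∀ M : Lab n, Quot.mk _ M = q → P n M.1} : ℝ) ≤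
            (Nat.card {M : Lab n // ¬ P n M.1} : ℝ) := by exact_mod_cast bad_unl n (P n)
        calc (Nat.card {q : Unl n // ¬ ∀ M : Lab n, Quot.mk _ M = q → P n M.1} : ℝ) * 2 ^ (n ^ 2)
            ≤ (Nat.card {M : Lab n // ¬ P n M.1} : ℝ) * 2 ^ (n ^ 2) :=
              mul_le_mul_of_nonneg_right e1 (by positivity)
          _ ≤ (2 * n + 1) * (Nat.card (Lab n) : ℝ) := hn
          _ ≤ (2 * n + 1) * ((Nat.card (Unl n) : ℝ) * (n.factorial : ℝ)) :=
              mul_le_mul_of_nonneg_left (lab_unl n) (by positivity)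
          _ = _ := by ring
      linarith
    · refine Eventually.of_forall fun n => ?_
      apply div_le_one_of_le₀ _ (Nat.cast_nonneg _)
      apply Nat.cast_le.2
      exact Nat.card_le_card_of_injective _ Subtype.val_injective

end Pool.Agent.N353.Star
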