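import Pool.Agent.Helper46.A.G3

set_option autoImplicit false

namespace Pool.Agent.N353.Star

open Finset Pool.Agent.Helper46.A

/-- no loops and no coloops -/
def LC {n : ℕ} (B : Fam n) : Prop := (∀ x, indep B {x}) ∧ ∀ x, ∃ Y ∈ B, x ∉ Y

open Classical in
/-- nonbases that are not isolated -/
noncomputable def AA {n : ℕ} (l r : ℕ) (B : Fam n) : Fam n :=
  (powersetCard r (univ : Finset (Fin n))).filter (fun X => X ∉ B ∧ X ∉ sg l r B)

theorem mem_AA {n l r : ℕ} {B : Fam n} {X : Finset (Fin n)} :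
    X ∈ AA l r B ↔ X.card = r ∧ X ∉ B ∧ X ∉ sg l r B := by
  unfold AA
  rw [mem_filter, mem_powersetCard]
  simp

theorem mem_sg {n l r : ℕ} {B : Fam n} {X : Finset (Fin n)} :
    X ∈ sg l r B ↔ X ∈ UU l r B ∧ ∀ Y, Rel (info l r B) X Y → Y = X := D2.F1_mem_sg

theorem mem_nt {n l r : ℕ} {B : Fam n} {X : Finset (Fin n)} :
    X ∈ nt l r B ↔ X ∈ UU l r B ∧ X = rep (info l r B) X ∧
      ∃ Y, Y ≠ X ∧ Rel (info l r B) X Y := D2.F1_mem_nt

theorem htie {n l r : ℕ} {B : Fam n} (hB : IsBF r B) :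
    ∀ X Y : Finset (Fin n), tie (info l r B) X Y → (X ∈ B ↔ Y ∈ B) :=
  fun _ _ h => C2.tie_mem hB h

theorem hQ {n l r : ℕ} {B : Fam n} (hB : IsBF r B) :
    ∀ X : Finset (Fin n), X.card = r → Q (info l r B) X → X ∉ B :=
  fun _ hX h => C1.Q_not_mem hB hX h

theorem mem_AA_iff {n l r : ℕ} {B : Fam n} (hB : IsBF r B) (X : Finset (Fin n)) :
    X ∈ AA l r B ↔ X.card = r ∧
      (Kn (info l r B) X ∨ rep (info l r B) X ∈ nt l r B) := by
  rw [mem_AA]
  constructor
  · rintro ⟨h1, h2, h3⟩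
    refine ⟨h1, ?_⟩
    by_cases hk : Kn (info l r B) X
    · exact Or.inl hk
    · have hU : X ∈ UU l r B := D4.F3_mem_UU.2 ⟨h1, h2, hk⟩
      rcases (D4.F3_mem_UU_iff (htie hB) X).1 hU with h | h
      · exact absurd h h3
      · exact Or.inr h
  · rintro ⟨h1, h2 | h2⟩
    · refine ⟨h1, ?_, ?_⟩
      · intro hX
        exact ((D4.F3_mem_B hB (hQ hB) (htie hB) X).1 hX).2.1 h2
      · intro hX
        exact (D4.F3_mem_UU.1 (mem_sg.1 hX).1).2.2 h2
    · have hU : X ∈ UU l r B := (D4.F3_mem_UU_iff (htie hB) X).2 (Or.inr h2)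
      refine ⟨h1, (D4.F3_mem_UU.1 hU).2.1, ?_⟩
      intro hX
      have h3 := (mem_sg.1 hX).2
      have h4 := h3 _ (D4.F3_rel_symm (D4.F3_rep_rel (info l r B) X))
      rw [h4] at h2
      obtain ⟨_, _, Y, hY, hr⟩ := mem_nt.1 h2
      exact hY (h3 Y hr)

theorem adj_form {n : ℕ} {X Y : Finset (Fin n)} (h : Adj X Y) :
    ∃ f ∈ X, ∃ g, g ∉ X ∧ Y = insert g (X.erase f) := by
  obtain ⟨h1, h2⟩ := h
  obtain ⟨f, hf⟩ := Finset.card_eq_one.1 h1
  obtain ⟨g, hg⟩ := Finset.card_eq_one.1 h2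
  have hfX : f ∈ X ∧ f ∉ Y := by
    have : f ∈ X \ Y := by rw [hf]; simp
    simpa using this
  have hgY : g ∈ Y ∧ g ∉ X := by
    have : g ∈ Y \ X := by rw [hg]; simp
    simpa using this
  refine ⟨f, hfX.1, g, hgY.2, ?_⟩
  ext x
  simp only [mem_insert, mem_erase]
  constructor
  · intro hx
    by_cases hxX : x ∈ X
    · right
      refine ⟨?_, hxX⟩
      rintro rfl
      exact hfX.2 hx
    · left
      have : x ∈ Y \ X := by simp [hx, hxX]
      rw [hg] at this
      simpa using this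
  · rintro (rfl | ⟨hx1, hx2⟩)
    · exact hgY.1
    · by_contra hxY
      have : x ∈ X \ Y := by simp [hx2, hxY]
      rw [hf] at this
      exact hx1 (by simpa using this)

theorem sg_adj {n l r : ℕ} (hl : 1 ≤ l) {B : Fam n} (hB : IsBF r B) (hLC : LC B)
    {X : Finset (Fin n)} (hX : X ∈ sg l r B) {Y : Finset (Fin n)} (h : Adj X Y) : Y ∈ B := by
  obtain ⟨f, hf, g, hg, rfl⟩ := adj_form h
  have key := D1.sg_relax (X := X) hl hB
    (fun X hX h => C1.Q_not_mem hB hX h)
    (fun X hX hXB hQ f hf g hg hY => C3.explained hB hX hXB hQ hf hg hY) hX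
  rcases key.2.2.2.2 f hf g hg with h1 | h1 | h1
  · exact h1
  · exact absurd (hLC.1 g) h1
  · obtain ⟨Z, hZ, hfZ⟩ := hLC.2 f
    exact absurd (h1 Z hZ) hfZ

theorem sg_stable {n l r : ℕ} (hl : 1 ≤ l) {B : Fam n} (hB : IsBF r B) (hLC : LC B)
    {X Y : Finset (Fin n)} (hX : X ∈ sg l r B) (hY : Y ∈ sg l r B) : ¬ Adj X Y := by
  intro h
  exact sg_not_mem hY (sg_adj hl hB hLC hX h)

theorem sg_card {n l r : ℕ} {B : Fam n} {X : Finset (Fin n)} (hX : X ∈ sg l r B) : X.card = r :=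
  (D4.F3_mem_UU.1 (mem_sg.1 hX).1).1

theorem count_AA {n r l K : ℕ} (hl : 1 ≤ l) (F : Finset (Fam n))
    (hF : ∀ B ∈ F, B ∈ BF n r ∧ LC B ∧ (nt l r B).card ≤ K) :
    ∑ B ∈ F, (St (AA l r B)).card ≤
      ((BF n r).image (info l r)).card * SB n K *
        (St (powersetCard r (univ : Finset (Fin n)))).card := by
  classical
  rw [← Finset.card_sigma]
  let T : Finset (Info n × Fam n × Fam n) :=
    ((BF n r).image (info l r)) ×ˢ ((univ : Finset (Fam n)).filter (fun S => S.card ≤ K)) ×ˢ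
      (St (powersetCard r (univ : Finset (Fin n))))
  have hT : T.card ≤ ((BF n r).image (info l r)).card * SB n K *
      (St (powersetCard r (univ : Finset (Fin n)))).card := by
    simp only [T, Finset.card_product]
    rw [mul_assoc]
    exact Nat.mul_le_mul_left _ (Nat.mul_le_mul_right _ D4.F3_SB)
  refine le_trans ?_ hT
  refine Finset.card_le_card_of_injOn
    (fun p => (info l r p.1, nt l r p.1, sg l r p.1 ∪ p.2)) ?_ ?_
  · rintro ⟨B, S⟩ hp
    have hp' : B ∈ F ∧ S ∈ St (AA l r B) := Finset.mem_sigma.1 hp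
    obtain ⟨hB, hS⟩ := hp'
    obtain ⟨hB1, hB2, hB3⟩ := hF B hB
    have hBF := mem_BF.1 hB1
    simp only [T, Finset.coe_product, Set.mem_prod, Finset.mem_coe, Finset.mem_filter,
      Finset.mem_univ, true_and]
    refine ⟨Finset.mem_image_of_mem _ hB1, hB3, ?_⟩
    unfold St at hS ⊢
    rw [Finset.mem_filter, Finset.mem_powerset] at hS ⊢
    obtain ⟨hS1, hS2⟩ := hS
    constructor
    · intro X hX
      rw [mem_powersetCard]
      refine ⟨subset_univ _, ?_⟩
      rcases mem_union.1 hX with h | h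
      · exact sg_card h
      · exact (mem_AA.1 (hS1 h)).1
    · intro X hX Y hY hA
      rcases mem_union.1 hX with hX | hX
      · rcases mem_union.1 hY with hY | hY
        · exact sg_stable hl hBF hB2 hX hY hA
        · exact (mem_AA.1 (hS1 hY)).2.1 (sg_adj hl hBF hB2 hX hA)
      · rcases mem_union.1 hY with hY | hY
        · exact (mem_AA.1 (hS1 hX)).2.1 (sg_adj hl hBF hB2 hY ⟨hA.2, hA.1⟩)
        · exact hS2 X hX Y hY hA
  · rintro ⟨B, S⟩ hp ⟨B', S'⟩ hp' heq
    have hp1 : B ∈ F ∧ S ∈ St (AA l r B) := Finset.mem_sigma.1 hp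
    have hp2 : B' ∈ F ∧ S' ∈ St (AA l r B') := Finset.mem_sigma.1 hp'
    obtain ⟨hB, hS⟩ := hp1
    obtain ⟨hB', hS'⟩ := hp2
    obtain ⟨hB1, -, -⟩ := hF B hB
    obtain ⟨hB1', -, -⟩ := hF B' hB'
    have hBF := mem_BF.1 hB1
    have hBF' := mem_BF.1 hB1'
    have e1 : info l r B = info l r B' := congrArg Prod.fst heq
    have e2 : nt l r B = nt l r B' := congrArg (fun p => p.2.1) heq
    have e3 : sg l r B ∪ S = sg l r B' ∪ S' := congrArg (fun p => p.2.2) heq
    have e4 : AA l r B = AA l r B' := by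
      ext X
      rw [mem_AA_iff hBF, mem_AA_iff hBF', e1, e2]
    have s1 : S ⊆ AA l r B := by
      unfold St at hS
      exact mem_powerset.1 (mem_filter.1 hS).1
    have s2 : S' ⊆ AA l r B' := by
      unfold St at hS'
      exact mem_powerset.1 (mem_filter.1 hS').1
    have d1 : ∀ X ∈ sg l r B, X ∉ AA l r B := fun X hX h => (mem_AA.1 h).2.2 hX
    have d2 : ∀ X ∈ sg l r B', X ∉ AA l r B' := fun X hX h => (mem_AA.1 h).2.2 hX
    have e5 : sg l r B = sg l r B' := by
      ext X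
      constructor
      · intro h
        have h1 : X ∈ sg l r B' ∪ S' := by rw [← e3]; exact mem_union_left _ h
        rcases mem_union.1 h1 with h2 | h2
        · exact h2
        · exact absurd (e4 ▸ s2 h2) (d1 X h)
      · intro h
        have h1 : X ∈ sg l r B ∪ S := by rw [e3]; exact mem_union_left _ h
        rcases mem_union.1 h1 with h2 | h2
        · exact h2
        · exact absurd (e4 ▸ s1 h2) (d2 X h)
    have e6 : S = S' := by
      ext X
      constructor
      · intro h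
        have h1 : X ∈ sg l r B' ∪ S' := by rw [← e3]; exact mem_union_right _ h
        rcases mem_union.1 h1 with h2 | h2
        · exact absurd (e4 ▸ s1 h) (d2 X h2)
        · exact h2
      · intro h
        have h1 : X ∈ sg l r B ∪ S := by rw [e3]; exact mem_union_right _ h
        rcases mem_union.1 h1 with h2 | h2
        · exact absurd (e4 ▸ s2 h) (d1 X h2)
        · exact h2
    have e7 : UU l r B = UU l r B' := by
      ext X
      rw [D4.F3_mem_UU_iff (htie hBF), D4.F3_mem_UU_iff (htie hBF'), e5, e2, e1]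
    have e8 : B = B' := by
      ext X
      rw [D4.F3_mem_B hBF (hQ hBF) (htie hBF), D4.F3_mem_B hBF' (hQ hBF')
        (htie hBF'), e7, e1]
    subst e8
    subst e6
    rfl

theorem count_big {n r l K : ℕ} (hn : 0 < n) (hl : 1 ≤ l) (α : ℝ) (F : Finset (Fam n))
    (hF : ∀ B ∈ F, B ∈ BF n r ∧ LC B ∧ (nt l r B).card ≤ K ∧ α ≤ ((AA l r B).card : ℝ)) :
    (F.card : ℝ) * (2 : ℝ) ^ (α / n) ≤
      (((BF n r).image (info l r)).card : ℝ) * (SB n K : ℝ) *
        ((St (powersetCard r (univ : Finset (Fin n)))).card : ℝ) := by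
  have h1 := count_AA (n := n) (r := r) (l := l) (K := K) hl F
    (fun B hB => ⟨(hF B hB).1, (hF B hB).2.1, (hF B hB).2.2.1⟩)
  have h2 : ∑ B ∈ F, (2 : ℝ) ^ (α / n) ≤ ∑ B ∈ F, ((St (AA l r B)).card : ℝ) := by
    apply sum_le_sum
    intro B hB
    refine le_trans ?_ (B1.st_lower hn (AA l r B))
    apply Real.rpow_le_rpow_of_exponent_le (by norm_num)
    exact div_le_div_of_nonneg_right (hF B hB).2.2.2 (by positivity)
  rw [sum_const, nsmul_eq_mul] at h2
  refine h2.trans ?_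
  exact_mod_cast h1

theorem count_nt {n r l K : ℕ} (F : Finset (Fam n))
    (hF : ∀ B ∈ F, B ∈ BF n r ∧ K ≤ (nt l r B).card) :
    (F.card : ℝ) * (2 : ℝ) ^ K ≤
      (((BF n r).image (info l r)).card : ℝ) *
        ((St (powersetCard r (univ : Finset (Fin n)))).card : ℝ) := by
  have f1 := D2.F1 (l := l) (r := r) (n := n) (fun B hB => hQ (mem_BF.1 hB))
    (fun B hB => htie (mem_BF.1 hB))
    (fun B hB X Y h1 h2 h3 h4 h5 h6 h7 => adj_tie (mem_BF.1 hB) h1 h2 h3 h4 h5 h6 h7)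
  have : F.card * 2 ^ K ≤ ∑ B ∈ BF n r, 2 ^ (nt l r B).card := by
    rw [← smul_eq_mul, ← sum_const]
    calc ∑ B ∈ F, 2 ^ K ≤ ∑ B ∈ F, 2 ^ (nt l r B).card := by
          apply sum_le_sum
          intro B hB
          exact Nat.pow_le_pow_right (by norm_num) (hF B hB).2
      _ ≤ _ := sum_le_sum_of_subset (fun B hB => (hF B hB).1)
  exact_mod_cast this.trans f1

end Pool.Agent.N353.Star
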