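import Pool.Agent.Helper46.A.G3

set_option autoImplicit false

namespace Pool.Agent.N353.Star

open Finset Filter Pool.Agent.Helper46.A

/-- sends `g` to `e` and fixes the rest -/
def ppi {n : ℕ} (g e : Fin n) : Fin n → Fin n := fun x => if x = g then e else x

/-- the family where `g` is made parallel to `e` -/
def par {n : ℕ} (r : ℕ) (B : Fam n) (g e : Fin n) : Fam n :=
  univ.filter (fun X => X.card = r ∧ X.image (ppi g e) ∈ B)

theorem mem_par {n r : ℕ} {B : Fam n} {g e : Fin n} {X : Finset (Fin n)} :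
    X ∈ par r B g e ↔ X.card = r ∧ X.image (ppi g e) ∈ B := by
  unfold par; simp

theorem ppi_image {n : ℕ} {g e : Fin n} {X : Finset (Fin n)} (hg : g ∉ X) :
    X.image (ppi g e) = X := by
  ext x
  rw [mem_image]
  constructor
  · rintro ⟨y, hy, rfl⟩
    unfold ppi
    have hne : y ≠ g := by rintro rfl; exact hg hy
    rw [if_neg hne]
    exact hy
  · intro hx
    refine ⟨x, hx, ?_⟩
    unfold ppi
    have hne : x ≠ g := by rintro rfl; exact hg hx
    rw [if_neg hne]

theorem mem_par_of_notMem {n r : ℕ} {B : Fam n} (hB : IsBF r B) {g e : Fin n}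
    {X : Finset (Fin n)} (hg : g ∉ X) : X ∈ par r B g e ↔ X ∈ B := by
  rw [mem_par, ppi_image hg]
  exact ⟨fun h => h.2, fun h => ⟨hB.card X h, h⟩⟩

theorem par_isBF {n r : ℕ} {B : Fam n} (hB : IsBF r B) {g e : Fin n}
    (hg : ∀ X ∈ B, g ∉ X) : IsBF r (par r B g e) := by
  refine ⟨?_, ?_, ?_⟩
  · obtain ⟨X, hX⟩ := hB.ne
    exact ⟨X, (mem_par_of_notMem hB (hg X hX)).2 hX⟩
  · intro X hX
    exact (mem_par.1 hX).1
  · intro X hX Y hY x hx
    rw [mem_par] at hX hY
    rw [Finset.mem_sdiff] at hx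
    have injX : Set.InjOn (ppi g e) (X : Set (Fin n)) := by
      apply Finset.card_image_iff.1
      rw [hB.card _ hX.2, hX.1]
    have hcard : ∀ y, y ∉ X → (insert y (X.erase x)).card = r := by
      intro y hy
      rw [card_insert_of_notMem (fun h => hy (mem_of_mem_erase h)), card_erase_of_mem hx.1, hX.1]
      have : 0 < X.card := card_pos.2 ⟨x, hx.1⟩
      omega
    have himage : (X.erase x).image (ppi g e) = (X.image (ppi g e)).erase (ppi g e x) := by
      ext z
      rw [mem_image, mem_erase, mem_image]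
      constructor
      · rintro ⟨w, hw, rfl⟩
        rw [mem_erase] at hw
        refine ⟨fun h => hw.1 (injX hw.2 hx.1 h), w, hw.2, rfl⟩
      · rintro ⟨h1, w, hw, rfl⟩
        exact ⟨w, mem_erase.2 ⟨fun h => h1 (by rw [h]), hw⟩, rfl⟩
    by_cases hxY : ppi g e x ∈ Y.image (ppi g e)
    · obtain ⟨y, hy, hyx⟩ := mem_image.1 hxY
      have hyX : y ∉ X := by
        intro hyX
        have := injX hyX hx.1 hyx
        exact hx.2 (this ▸ hy)
      refine ⟨y, Finset.mem_sdiff.2 ⟨hy, hyX⟩, mem_par.2 ⟨hcard y hyX, ?_⟩⟩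
      rw [image_insert, himage, hyx, insert_erase (mem_image_of_mem _ hx.1)]
      exact hX.2
    · obtain ⟨z, hz, hzB⟩ := hB.exch _ hX.2 _ hY.2 (ppi g e x)
        (Finset.mem_sdiff.2 ⟨mem_image_of_mem _ hx.1, hxY⟩)
      rw [Finset.mem_sdiff] at hz
      obtain ⟨y, hy, rfl⟩ := mem_image.1 hz.1
      have hyX : y ∉ X := fun h => hz.2 (mem_image_of_mem _ h)
      refine ⟨y, Finset.mem_sdiff.2 ⟨hy, hyX⟩, mem_par.2 ⟨hcard y hyX, ?_⟩⟩
      rw [image_insert, himage]
      exact hzB

theorem par_fix {n r : ℕ} {B : Fam n} {g e : Fin n} :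
    (par r B g e).image (fun X => X.image (Equiv.swap g e)) = par r B g e := by
  classical
  have key : ∀ X : Finset (Fin n), (X.image (Equiv.swap g e)).image (ppi g e) =
      X.image (ppi g e) := by
    intro X
    rw [image_image]
    apply image_congr
    intro x _
    show ppi g e (Equiv.swap g e x) = ppi g e x
    unfold ppi
    by_cases h1 : x = g
    · subst h1
      rw [Equiv.swap_apply_left]
      split_ifs <;> simp_all
    · by_cases h2 : x = e
      · subst h2
        rw [Equiv.swap_apply_right]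
        simp [h1]
      · rw [Equiv.swap_apply_of_ne_of_ne h1 h2]
  have hmem : ∀ X : Finset (Fin n), X ∈ par r B g e → X.image (Equiv.swap g e) ∈ par r B g e := by
    intro X hX
    rw [mem_par] at hX ⊢
    refine ⟨?_, ?_⟩
    · rw [card_image_of_injective _ (Equiv.injective _)]
      exact hX.1
    · rw [key]
      exact hX.2
  ext X
  rw [mem_image]
  constructor
  · rintro ⟨Y, hY, rfl⟩
    exact hmem Y hY
  · intro hX
    refine ⟨X.image (Equiv.swap g e), hmem X hX, ?_⟩
    show (X.image (Equiv.swap g e)).image (Equiv.swap g e) = X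
    rw [image_image]
    have : (⇑(Equiv.swap g e) ∘ ⇑(Equiv.swap g e)) = id := by
      ext x
      simp
    rw [this, image_id]

theorem loop_count {n r : ℕ} (g e : Fin n) :
    ((BF n r).filter (fun B => ∀ X ∈ B, g ∉ X)).card ≤ (FixF r (Equiv.swap g e)).card := by
  classical
  refine card_le_card_of_injOn (fun B => par r B g e) ?_ ?_
  · intro B hB
    rw [mem_coe, mem_filter] at hB
    have h1 := mem_BF.1 hB.1
    rw [mem_coe]
    unfold FixF
    rw [mem_filter]
    exact ⟨mem_BF.2 (par_isBF h1 hB.2), par_fix⟩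
  · intro B hB B' hB' heq
    rw [mem_coe, mem_filter] at hB hB'
    have h1 := mem_BF.1 hB.1
    have h2 := mem_BF.1 hB'.1
    have heq' : par r B g e = par r B' g e := heq
    ext X
    constructor
    · intro hX
      have h3 := (mem_par_of_notMem (e := e) h1 (hB.2 X hX)).2 hX
      rw [heq'] at h3
      exact (mem_par_of_notMem (e := e) h2 (hB.2 X hX)).1 h3
    · intro hX
      have h3 := (mem_par_of_notMem (e := e) h2 (hB'.2 X hX)).2 hX
      rw [← heq'] at h3
      exact (mem_par_of_notMem (e := e) h1 (hB'.2 X hX)).1 h3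

open Classical in
/-- base families with a loop -/
noncomputable def LoopF (n r : ℕ) : Finset (Fam n) := (BF n r).filter (fun B => ∃ g, ∀ X ∈ B, g ∉ X)

open Classical in
/-- base families with a coloop -/
noncomputable def CoF (n r : ℕ) : Finset (Fam n) := (BF n r).filter (fun B => ∃ g, ∀ X ∈ B, g ∈ X)

theorem dualF_inj {n : ℕ} : Function.Injective (dualF (n := n)) := by
  intro B B' h
  unfold dualF at h
  exact Finset.image_injective compl_injective h

theorem co_le_loop {n r : ℕ} : (CoF n r).card ≤ (LoopF n (n - r)).card := by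
  classical
  refine card_le_card_of_injOn dualF ?_ (fun _ _ _ _ h => dualF_inj h)
  intro B hB
  unfold CoF at hB
  rw [mem_coe, mem_filter] at hB
  obtain ⟨hB1, g, hg⟩ := hB
  unfold LoopF
  rw [mem_coe, mem_filter]
  refine ⟨mem_BF.2 (dual_isBF (mem_BF.1 hB1)), g, ?_⟩
  intro X hX
  unfold dualF at hX
  obtain ⟨Y, hY, rfl⟩ := mem_image.1 hX
  rw [mem_compl, not_not]
  exact hg Y hY

theorem loop_le {n r : ℕ} (e : Fin n → Fin n) :
    ((LoopF n r).card : ℝ) ≤ ∑ g : Fin n, ((FixF r (Equiv.swap g (e g))).card : ℝ) := by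
  classical
  have h : LoopF n r ⊆ (univ : Finset (Fin n)).biUnion
      (fun g => (BF n r).filter (fun B => ∀ X ∈ B, g ∉ X)) := by
    intro B hB
    unfold LoopF at hB
    rw [mem_filter] at hB
    obtain ⟨hB1, g, hg⟩ := hB
    rw [mem_biUnion]
    exact ⟨g, mem_univ _, mem_filter.2 ⟨hB1, hg⟩⟩
  have h2 := (card_le_card h).trans (card_biUnion_le.trans (sum_le_sum (fun g _ => loop_count (r := r) g (e g))))
  exact_mod_cast h2

theorem loops_small : ∀ᶠ n : ℕ in atTop,
    (∑ r ∈ range (n + 1), (((LoopF n r).card : ℝ) + ((CoF n r).card : ℝ))) * 2 ^ (n ^ 2) ≤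
      2 * n * mm n := by
  filter_upwards [fix_small, eventually_ge_atTop 2] with n hfix hn
  have : NeZero n := ⟨by omega⟩
  have : Nontrivial (Fin n) := Fin.nontrivial_iff_two_le.2 hn
  have hex : ∀ g : Fin n, ∃ e : Fin n, g ≠ e := by
    intro g
    obtain ⟨e, he⟩ := exists_ne g
    exact ⟨e, he.symm⟩
  choose e he using hex
  have h1 : (∑ r ∈ range (n + 1), ((LoopF n r).card : ℝ)) * 2 ^ (n ^ 2) ≤ n * mm n := by
    calc (∑ r ∈ range (n + 1), ((LoopF n r).card : ℝ)) * 2 ^ (n ^ 2)
        ≤ (∑ r ∈ range (n + 1), ∑ g : Fin n, ((FixF r (Equiv.swap g (e g))).card : ℝ)) *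
            2 ^ (n ^ 2) := by
          apply mul_le_mul_of_nonneg_right _ (by positivity)
          exact sum_le_sum (fun r _ => loop_le e)
      _ = ∑ g : Fin n, (∑ r ∈ range (n + 1), ((FixF r (Equiv.swap g (e g))).card : ℝ)) *
            2 ^ (n ^ 2) := by
          rw [sum_comm, sum_mul]
      _ ≤ ∑ g : Fin n, mm n := by
          apply sum_le_sum
          intro g _
          apply hfix
          intro h
          apply he g
          have := congrArg (fun σ : Equiv.Perm (Fin n) => σ g) h
          simp only [Equiv.swap_apply_left, Equiv.Perm.coe_one, id] at this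
          exact this.symm
      _ = n * mm n := by rw [sum_const, card_univ, Fintype.card_fin, nsmul_eq_mul]
  have h2 : ∑ r ∈ range (n + 1), ((CoF n r).card : ℝ) ≤
      ∑ r ∈ range (n + 1), ((LoopF n r).card : ℝ) := by
    calc ∑ r ∈ range (n + 1), ((CoF n r).card : ℝ)
        ≤ ∑ r ∈ range (n + 1), ((LoopF n (n - r)).card : ℝ) :=
          sum_le_sum (fun r _ => by exact_mod_cast co_le_loop)
      _ = ∑ r ∈ range (n + 1), ((LoopF n r).card : ℝ) := by
          have := Finset.sum_range_reflect (fun r => ((LoopF n r).card : ℝ)) (n + 1)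
          simpa using this
  rw [sum_add_distrib]
  have h3 : (∑ r ∈ range (n + 1), ((CoF n r).card : ℝ)) * 2 ^ (n ^ 2) ≤ n * mm n :=
    (mul_le_mul_of_nonneg_right h2 (by positivity)).trans h1
  rw [add_mul]
  linarith

end Pool.Agent.N353.Star
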