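import Pool.Agent.N353.Star.Num
import Pool.Agent.N353.Star.Count
import Pool.Agent.N353.Star.Loops

set_option autoImplicit false

namespace Pool.Agent.N353.Star

open Finset Filter Pool.Agent.Helper46 Pool.Agent.Helper46.A

/-- rank in the middle window and few nonbases -/
def Good (n r : ℕ) (ε : ℝ) (B : Fam n) : Prop :=
  n ≤ 8 * r ∧ 8 * r ≤ 7 * n ∧
    (((powersetCard r (univ : Finset (Fin n))) \ B).card : ℝ) ≤ ε * (n.choose r : ℝ)

open Classical in
/-- the exceptional base families -/
noncomputable def BadF (n r : ℕ) (ε : ℝ) : Finset (Fam n) :=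
  (BF n r).filter (fun B => ¬ Good n r ε B)

/-- stable families are small -/
theorem stable_card {n r : ℕ} (h0 : 0 < r) (S : Fam n) (hS : ∀ X ∈ S, X.card = r)
    (hst : ∀ X ∈ S, ∀ Y ∈ S, ¬ Adj X Y) : S.card * r ≤ n.choose (r - 1) := by
  classical
  have hdis : ∀ X ∈ S, ∀ Y ∈ S, X ≠ Y →
      Disjoint (powersetCard (r - 1) X) (powersetCard (r - 1) Y) := by
    intro X hX Y hY hne
    rw [Finset.disjoint_left]
    intro W hW1 hW2
    rw [mem_powersetCard] at hW1 hW2
    apply hst X hX Y hY
    have hXc := hS X hX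
    have hYc := hS Y hY
    have h1 : W ⊆ X ∩ Y := subset_inter hW1.1 hW2.1
    have h2 : r - 1 ≤ (X ∩ Y).card := by
      rw [← hW1.2]; exact card_le_card h1
    have h3 : (X ∩ Y).card < r := by
      by_contra hcon
      push Not at hcon
      apply hne
      have e1 : X ∩ Y = X := eq_of_subset_of_card_le inter_subset_left (by omega)
      have e2 : X ∩ Y = Y := eq_of_subset_of_card_le inter_subset_right (by omega)
      rw [← e1]; exact e2
    have a1 := card_sdiff_add_card_inter X Y
    have a2 := card_sdiff_add_card_inter Y X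
    rw [inter_comm] at a2
    exact ⟨by omega, by omega⟩
  have hsum : (S.biUnion (fun X => powersetCard (r - 1) X)).card = S.card * r := by
    rw [card_biUnion hdis, sum_congr rfl (g := fun _ => r), sum_const, smul_eq_mul]
    intro X hX
    rw [card_powersetCard, hS X hX]
    have : r.choose (r - 1) = r := by
      rw [← Nat.choose_symm (by omega : r - 1 ≤ r)]
      have : r - (r - 1) = 1 := by omega
      rw [this, Nat.choose_one_right]
    exact this
  rw [← hsum]
  calc (S.biUnion (fun X => powersetCard (r - 1) X)).card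
      ≤ (powersetCard (r - 1) (univ : Finset (Fin n))).card := by
        apply card_le_card
        intro W hW
        rw [mem_biUnion] at hW
        obtain ⟨X, -, hX⟩ := hW
        rw [mem_powersetCard] at hX ⊢
        exact ⟨subset_univ _, hX.2⟩
    _ = n.choose (r - 1) := by rw [card_powersetCard, card_univ, Fintype.card_fin]

theorem sg_count {n l r : ℕ} (hl : 1 ≤ l) (h0 : 0 < r) (hrn : r ≤ n) {B : Fam n} (hB : IsBF r B)
    (hLC : LC B) : (sg l r B).card * (n - r + 1) ≤ n.choose r := by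
  have h1 := stable_card h0 (sg l r B) (fun X hX => sg_card hX)
    (fun X hX Y hY => sg_stable hl hB hLC hX hY)
  obtain ⟨s, rfl⟩ : ∃ s, r = s + 1 := ⟨r - 1, by omega⟩
  have h2 := Nat.choose_succ_right_eq n s
  have h3 : n - (s + 1) + 1 = n - s := by omega
  rw [h3]
  rw [Nat.add_sub_cancel] at h1
  have h4 : (sg l (s + 1) B).card * (n - s) * (s + 1) ≤ n.choose (s + 1) * (s + 1) := by
    rw [h2]
    calc (sg l (s + 1) B).card * (n - s) * (s + 1)
        = (sg l (s + 1) B).card * (s + 1) * (n - s) := by ring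
      _ ≤ n.choose s * (n - s) := Nat.mul_le_mul_right _ h1
  exact Nat.le_of_mul_le_mul_right h4 (Nat.succ_pos s)

theorem nonbases_le {n l r : ℕ} {B : Fam n} :
    ((powersetCard r (univ : Finset (Fin n))) \ B).card ≤
      (AA l r B).card + (sg l r B).card := by
  classical
  refine (card_le_card ?_).trans (card_union_le _ _)
  intro X hX
  rw [Finset.mem_sdiff, mem_powersetCard] at hX
  by_cases h : X ∈ sg l r B
  · exact mem_union_right _ h
  · exact mem_union_left _ (mem_AA.2 ⟨hX.1.2, hX.2, h⟩)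

theorem st_small : ∀ᶠ n : ℕ in atTop, ∀ r : ℕ, n ≤ 8 * r → 8 * r ≤ 7 * n →
    4 * n.choose r < n.choose (n / 2) →
    ((St (powersetCard r (univ : Finset (Fin n)))).card : ℝ) ≤
      (2 : ℝ) ^ ((3 : ℝ) / 5 * ((AN.N0 n : ℝ) / n)) := by
  filter_upwards [E7.upper, eventually_ge_atTop 100] with n hup hn r h1 h2 hC
  have hrows := A3.super_rows (n := n) univ r (by omega) (by rw [card_univ, Fintype.card_fin]; omega)
  have hcols := A4.super_cols (n := n) univ r (by rw [card_univ, Fintype.card_fin]; omega)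
  exact hup r h1 h2 hC (fun a θ ha hθ V h lam hl => kwU a θ ha hθ V h lam hl)
      (fun A hA hc => by
        have := hrows (1 / 10) (by norm_num) A hA (by rw [card_univ, Fintype.card_fin]; exact hc)
        rw [card_univ, Fintype.card_fin] at this
        exact this)
      (fun A hA hc => by
        have := hcols (1 / 10) (by norm_num)
          (fun j hj1 hj2 A hA hc => A3.super_rows univ j hj1 hj2 (1 / 10) (by norm_num) A hA hc)
          A hA (by rw [card_univ, Fintype.card_fin]; exact hc)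
        rw [card_univ, Fintype.card_fin] at this
        exact this)


open Classical in
/-- loopless and coloopless exceptional base families -/
noncomputable def RF (n r : ℕ) (ε : ℝ) : Finset (Fam n) :=
  (BF n r).filter (fun B => LC B ∧ ¬ Good n r ε B)

theorem bad_le {n r : ℕ} {ε : ℝ} :
    (BadF n r ε).card ≤ (LoopF n r).card + (CoF n r).card + (RF n r ε).card := by
  classical
  have h : BadF n r ε ⊆ (LoopF n r ∪ CoF n r) ∪ RF n r ε := by
    intro B hB
    unfold BadF at hB
    rw [mem_filter] at hB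
    by_cases hLC : LC B
    · apply mem_union_right
      unfold RF
      rw [mem_filter]
      exact ⟨hB.1, hLC, hB.2⟩
    · apply mem_union_left
      unfold LC at hLC
      rw [not_and_or] at hLC
      rcases hLC with h | h
      · apply mem_union_left
        unfold LoopF
        rw [mem_filter]
        refine ⟨hB.1, ?_⟩
        push Not at h
        obtain ⟨g, hg⟩ := h
        refine ⟨g, fun X hX hgX => hg ⟨X, hX, ?_⟩⟩
        rw [singleton_subset_iff]
        exact hgX
      · apply mem_union_right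
        unfold CoF
        rw [mem_filter]
        refine ⟨hB.1, ?_⟩
        push Not at h
        exact h
  exact (card_le_card h).trans ((card_union_le _ _).trans
    (Nat.add_le_add_right (card_union_le _ _) _))

theorem RF_bound (ε : ℝ) (hε : 0 < ε) : ∀ᶠ n : ℕ in atTop, ∀ r ≤ n,
    ((RF n r ε).card : ℝ) * 2 ^ (n ^ 2 + n + 2) ≤ 2 * mm n := by
  classical
  have hSB : ∀ n k : ℕ, 1 ≤ n → (AN.SB n k : ℝ) ≤ (n : ℝ) ^ (4 * k) *
      Real.exp ((2 : ℝ) ^ n / (n : ℝ) ^ 4) := fun n k hn => AN.E2.SB_le n k hn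
  filter_upwards [AN.E3.num1 AN.E1.tail hSB, Num.num2c (ε / 8) (by positivity) AN.E1.tail hSB,
    Num.num2c (1 / 500) (by norm_num) AN.E1.tail hSB, AN.E5.num3 AN.E1.tail,
    st_small, eventually_ge_atTop 100, eventually_ge_atTop (⌈16 / ε⌉₊ + 1)] with
    n h1 h2 h2' h3 hst hn hnε r hr
  have hmm := mm_lower (n := n) (by omega)
  have hmm0 : 0 ≤ mm n := le_trans (by positivity) hmm
  have hnpos : (0 : ℝ) < n := by exact_mod_cast (by omega : 0 < n)
  by_cases hw : n ≤ 8 * r ∧ 8 * r ≤ 7 * n
  · obtain ⟨hw1, hw2⟩ := hw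
    have hl : 1 ≤ n / 8 := by omega
    have hI := C6.info_card (n := n) (l := n / 8) (by omega) r
      (fun s B hB => C4.relH_card hB)
    have hI' : (((BF n r).image (info (n / 8) r)).card : ℝ) ≤
        ((2 : ℝ) ^ (AN.Fs n)) ^ 2 * ((AN.SB n (2 * AN.N0 n / (n / 8) ^ 2) : ℕ) : ℝ) ^ 2 := by
      exact_mod_cast hI
    have hS := st_le_mm (n := n) (r := r) (by omega) (by omega)
    have hBm := BF_le_mm (n := n) (r := r) (by omega)
    set I : ℝ := (((BF n r).image (info (n / 8) r)).card : ℝ)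
    set J : ℝ := ((2 : ℝ) ^ (AN.Fs n)) ^ 2 * ((AN.SB n (2 * AN.N0 n / (n / 8) ^ 2) : ℕ) : ℝ) ^ 2
      with hJ
    set S : ℝ := ((St (powersetCard r (univ : Finset (Fin n)))).card : ℝ)
    have hI0 : 0 ≤ I := by positivity
    have hS0 : 0 ≤ S := by positivity
    have hP : (0 : ℝ) < 2 ^ (n ^ 2 + n + 2) := by positivity
    -- split
    set F1 : Finset (Fam n) := (RF n r ε).filter (fun B => AN.Kn n ≤ (nt (n / 8) r B).card) with hF1
    set F2 : Finset (Fam n) := (RF n r ε).filter (fun B => ¬ AN.Kn n ≤ (nt (n / 8) r B).card) with hF2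
    have hsplit : ((RF n r ε).card : ℝ) = (F1.card : ℝ) + (F2.card : ℝ) := by
      have := Finset.card_filter_add_card_filter_not (s := RF n r ε)
        (fun B => AN.Kn n ≤ (nt (n / 8) r B).card)
      rw [← this]
      push_cast
      rfl
    have hRF : ∀ B ∈ RF n r ε, B ∈ BF n r ∧ LC B ∧ ¬ Good n r ε B := by
      intro B hB
      unfold RF at hB
      exact mem_filter.1 hB
    -- many nontrivial classes
    have t1 : (F1.card : ℝ) * 2 ^ (n ^ 2 + n + 2) ≤ mm n := by
      have e0 := count_nt (n := n) (r := r) (l := n / 8) (K := AN.Kn n) F1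
        (fun B hB => ⟨(hRF B (mem_filter.1 hB).1).1, (mem_filter.1 hB).2⟩)
      have e1 : I * 2 ^ (n ^ 2 + n + 2) ≤ 2 ^ (AN.Kn n) :=
        le_trans (mul_le_mul_of_nonneg_right hI' hP.le) h1
      have hK : (0 : ℝ) < 2 ^ (AN.Kn n) := by positivity
      have e2 : (F1.card : ℝ) * 2 ^ (n ^ 2 + n + 2) * 2 ^ (AN.Kn n) ≤ S * 2 ^ (AN.Kn n) := by
        calc (F1.card : ℝ) * 2 ^ (n ^ 2 + n + 2) * 2 ^ (AN.Kn n)
            = ((F1.card : ℝ) * 2 ^ (AN.Kn n)) * 2 ^ (n ^ 2 + n + 2) := by ring
          _ ≤ (I * S) * 2 ^ (n ^ 2 + n + 2) := mul_le_mul_of_nonneg_right e0 hP.le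
          _ = S * (I * 2 ^ (n ^ 2 + n + 2)) := by ring
          _ ≤ S * 2 ^ (AN.Kn n) := mul_le_mul_of_nonneg_left e1 hS0
      exact (le_of_mul_le_mul_right e2 hK).trans hS
    -- few nontrivial classes
    have t2 : (F2.card : ℝ) * 2 ^ (n ^ 2 + n + 2) ≤ mm n := by
      have hsb : ∀ k, SB n k = AN.SB n k := fun k => rfl
      by_cases hC : 4 * n.choose r < n.choose (n / 2)
      · have e0 := count_big (n := n) (r := r) (l := n / 8) (K := AN.Kn n) (by omega) hl 0 F2
          (fun B hB => ⟨(hRF B (mem_filter.1 hB).1).1, (hRF B (mem_filter.1 hB).1).2.1,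
            by have := (mem_filter.1 hB).2; omega, by positivity⟩)
        rw [zero_div, Real.rpow_zero, mul_one, hsb] at e0
        have e1 : I * (AN.SB n (AN.Kn n) : ℝ) * 2 ^ (n ^ 2 + n + 2) ≤
            (2 : ℝ) ^ ((AN.N0 n : ℝ) / n / 500) := by
          have : (2 : ℝ) ^ ((1 : ℝ) / 500 * ((AN.N0 n : ℝ) / n)) =
              (2 : ℝ) ^ ((AN.N0 n : ℝ) / n / 500) := by congr 1; ring
          rw [← this]
          refine le_trans ?_ h2'
          gcongr
        have e2 := hst r hw1 hw2 hC
        calc (F2.card : ℝ) * 2 ^ (n ^ 2 + n + 2)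
            ≤ (I * (AN.SB n (AN.Kn n) : ℝ) * S) * 2 ^ (n ^ 2 + n + 2) :=
              mul_le_mul_of_nonneg_right e0 hP.le
          _ = S * (I * (AN.SB n (AN.Kn n) : ℝ) * 2 ^ (n ^ 2 + n + 2)) := by ring
          _ ≤ (2 : ℝ) ^ ((3 : ℝ) / 5 * ((AN.N0 n : ℝ) / n)) *
              (2 : ℝ) ^ ((AN.N0 n : ℝ) / n / 500) :=
              mul_le_mul e2 e1 (by positivity) (by positivity)
          _ ≤ _ := h3.2.1
          _ ≤ _ := hmm
      · push Not at hC
        have hα : ∀ B ∈ F2, (ε / 2) * (n.choose r : ℝ) ≤ ((AA (n / 8) r B).card : ℝ) := by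
          intro B hB
          obtain ⟨hB1, hB2, hB3⟩ := hRF B (mem_filter.1 hB).1
          have hgood : ε * (n.choose r : ℝ) <
              (((powersetCard r (univ : Finset (Fin n))) \ B).card : ℝ) := by
            by_contra hcon
            push Not at hcon
            exact hB3 ⟨hw1, hw2, hcon⟩
          have a1 : (((powersetCard r (univ : Finset (Fin n))) \ B).card : ℝ) ≤
              ((AA (n / 8) r B).card : ℝ) + ((sg (n / 8) r B).card : ℝ) := by
            exact_mod_cast nonbases_le (l := n / 8)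
          have a2 := sg_count (n := n) (l := n / 8) (r := r) hl (by omega) hr (mem_BF.1 hB1) hB2
          have a3 : ((sg (n / 8) r B).card : ℝ) * (n / 8) ≤ (n.choose r : ℝ) := by
            have b1 : ((sg (n / 8) r B).card : ℝ) * ((n - r + 1 : ℕ) : ℝ) ≤ (n.choose r : ℝ) := by
              exact_mod_cast a2
            refine le_trans ?_ b1
            apply mul_le_mul_of_nonneg_left _ (by positivity)
            have b2 : n ≤ 8 * (n - r + 1) := by omega
            have b3 : (n : ℝ) ≤ 8 * ((n - r + 1 : ℕ) : ℝ) := by exact_mod_cast b2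
            linarith
          have a4 : (16 : ℝ) ≤ ε * n := by
            have b1 : 16 / ε ≤ (⌈16 / ε⌉₊ : ℝ) := Nat.le_ceil _
            have b2 : ((⌈16 / ε⌉₊ : ℕ) : ℝ) + 1 ≤ n := by exact_mod_cast hnε
            have b3 : 16 / ε ≤ n := by linarith
            rw [div_le_iff₀ hε] at b3
            linarith
          have a5 : ((sg (n / 8) r B).card : ℝ) ≤ (ε / 2) * (n.choose r : ℝ) := by
            have c0 : (0 : ℝ) ≤ ((sg (n / 8) r B).card : ℝ) := by positivity
            have b1 : ((sg (n / 8) r B).card : ℝ) * 2 ≤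
                ε * (((sg (n / 8) r B).card : ℝ) * (n / 8)) := by
              nlinarith
            have b2 := mul_le_mul_of_nonneg_left a3 hε.le
            linarith
          linarith
        have e0 := count_big (n := n) (r := r) (l := n / 8) (K := AN.Kn n) (by omega) hl
          ((ε / 2) * (n.choose r : ℝ)) F2
          (fun B hB => ⟨(hRF B (mem_filter.1 hB).1).1, (hRF B (mem_filter.1 hB).1).2.1,
            by have := (mem_filter.1 hB).2; omega, hα B hB⟩)
        rw [hsb] at e0
        have e1 : I * (AN.SB n (AN.Kn n) : ℝ) * 2 ^ (n ^ 2 + n + 2) ≤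
            (2 : ℝ) ^ ((ε / 2) * (n.choose r : ℝ) / n) := by
          have b1 : (2 : ℝ) ^ ((ε / 8) * ((AN.N0 n : ℝ) / n)) ≤
              (2 : ℝ) ^ ((ε / 2) * (n.choose r : ℝ) / n) := by
            apply Real.rpow_le_rpow_of_exponent_le (by norm_num)
            have b2 : (AN.N0 n : ℝ) ≤ 4 * (n.choose r : ℝ) := by
              have : AN.N0 n ≤ 4 * n.choose r := hC
              exact_mod_cast this
            rw [mul_div_assoc']
            apply div_le_div_of_nonneg_right _ hnpos.le
            nlinarith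
          refine le_trans ?_ (h2.trans b1)
          gcongr
        have hX : (0 : ℝ) < (2 : ℝ) ^ ((ε / 2) * (n.choose r : ℝ) / n) := by positivity
        have e2 : (F2.card : ℝ) * 2 ^ (n ^ 2 + n + 2) *
            (2 : ℝ) ^ ((ε / 2) * (n.choose r : ℝ) / n) ≤
            S * (2 : ℝ) ^ ((ε / 2) * (n.choose r : ℝ) / n) := by
          calc (F2.card : ℝ) * 2 ^ (n ^ 2 + n + 2) * (2 : ℝ) ^ ((ε / 2) * (n.choose r : ℝ) / n)
              = ((F2.card : ℝ) * (2 : ℝ) ^ ((ε / 2) * (n.choose r : ℝ) / n)) *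
                  2 ^ (n ^ 2 + n + 2) := by ring
            _ ≤ (I * (AN.SB n (AN.Kn n) : ℝ) * S) * 2 ^ (n ^ 2 + n + 2) :=
                mul_le_mul_of_nonneg_right e0 hP.le
            _ = S * (I * (AN.SB n (AN.Kn n) : ℝ) * 2 ^ (n ^ 2 + n + 2)) := by ring
            _ ≤ _ := mul_le_mul_of_nonneg_left e1 hS0
        exact (le_of_mul_le_mul_right e2 hX).trans hS
    rw [hsplit, add_mul]
    linarith
  · have hc := choose_le_Fs hr hw
    have e1 : ((RF n r ε).card : ℝ) ≤ 2 ^ (AN.Fs n) := by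
      have e2 : (RF n r ε).card ≤ (BF n r).card := by
        unfold RF
        exact card_filter_le _ _
      have : (RF n r ε).card ≤ 2 ^ (AN.Fs n) :=
        e2.trans ((BF_card_le n r).trans (Nat.pow_le_pow_right (by norm_num) hc))
      exact_mod_cast this
    calc ((RF n r ε).card : ℝ) * 2 ^ (n ^ 2 + n + 2)
        ≤ 2 ^ (AN.Fs n) * 2 ^ (n ^ 2 + n + 2) := mul_le_mul_of_nonneg_right e1 (by positivity)
      _ ≤ _ := h3.1
      _ ≤ _ := hmm
      _ ≤ 2 * mm n := by linarith

/-- almost all matroids have rank in the middle window and few nonbases -/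
theorem star (ε : ℝ) (hε : 0 < ε) : ∀ᶠ n : ℕ in atTop,
    (∑ r ∈ range (n + 1), ((BadF n r ε).card : ℝ)) * 2 ^ (n ^ 2) ≤ (2 * n + 1) * mm n := by
  filter_upwards [RF_bound ε hε, loops_small, eventually_ge_atTop 2] with n h1 h2 hn
  have hmm := mm_lower (n := n) (by omega)
  have hmm0 : 0 ≤ mm n := le_trans (by positivity) hmm
  have h3 : (∑ r ∈ range (n + 1), ((RF n r ε).card : ℝ)) * 2 ^ (n ^ 2) ≤ mm n := by
    have e1 : (∑ r ∈ range (n + 1), ((RF n r ε).card : ℝ)) * 2 ^ (n ^ 2 + n + 2) ≤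
        (n + 1) * (2 * mm n) := by
      rw [sum_mul]
      calc ∑ r ∈ range (n + 1), ((RF n r ε).card : ℝ) * 2 ^ (n ^ 2 + n + 2)
          ≤ ∑ r ∈ range (n + 1), 2 * mm n :=
            sum_le_sum (fun r hr => h1 r (by rw [mem_range] at hr; omega))
        _ = (n + 1) * (2 * mm n) := by
            rw [sum_const, card_range, nsmul_eq_mul]; push_cast; ring
    have e2 : ((n : ℝ) + 1) ≤ 2 ^ n := by
      have : n + 1 ≤ 2 ^ n := Nat.lt_two_pow_self
      exact_mod_cast this
    have e3 : (2 : ℝ) ^ (n ^ 2 + n + 2) = 2 ^ (n ^ 2) * (4 * 2 ^ n) := by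
      rw [pow_add, pow_add]; norm_num; ring
    rw [e3] at e1
    have e4 : (∑ r ∈ range (n + 1), ((RF n r ε).card : ℝ)) * 2 ^ (n ^ 2) * (4 * 2 ^ n) ≤
        mm n * (4 * 2 ^ n) := by
      calc _ = (∑ r ∈ range (n + 1), ((RF n r ε).card : ℝ)) * (2 ^ (n ^ 2) * (4 * 2 ^ n)) := by
            ring
        _ ≤ (n + 1) * (2 * mm n) := e1
        _ ≤ 2 ^ n * (2 * mm n) := mul_le_mul_of_nonneg_right e2 (by positivity)
        _ ≤ mm n * (4 * 2 ^ n) := by nlinarith [mul_nonneg hmm0 (by positivity : (0:ℝ) ≤ 2 ^ n)]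
    exact le_of_mul_le_mul_right e4 (by positivity)
  have h4 : ∑ r ∈ range (n + 1), ((BadF n r ε).card : ℝ) ≤
      ∑ r ∈ range (n + 1), (((LoopF n r).card : ℝ) + ((CoF n r).card : ℝ)) +
        ∑ r ∈ range (n + 1), ((RF n r ε).card : ℝ) := by
    rw [← sum_add_distrib]
    apply sum_le_sum
    intro r _
    exact_mod_cast bad_le
  have h5 := mul_le_mul_of_nonneg_right h4 (by positivity : (0 : ℝ) ≤ 2 ^ (n ^ 2))
  rw [add_mul] at h5
  linarith

end Pool.Agent.N353.Star
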